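import Pool.Agent.Lib.MP_28303a_al.TT.Rows2

/-! # Row NOE: noetherian group rings of extensions by `ℤ`

Left ideals of `k[G]`, `G = N ⋊ ⟨t⟩`: leading coefficients, as in Hilbert's basis theorem. -/

set_option autoImplicit false
set_option linter.unusedSectionVars false
set_option linter.unusedVariables false

namespace Pool.Agent.NegK.TT.H73

open MonoidAlgebra Pool.Agent.NegK.TW Pool.Agent.NegK

universe u

section

variable {k G : Type u} [Ring k] [Group G] {N : Subgroup G} {t : G}

/-- The degree with respect to `t`. -/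
structure Deg (N : Subgroup G) (t : G) (deg : G → ℤ) : Prop where
  mul : ∀ g h, deg (g * h) = deg g + deg h
  pow : ∀ n : ℤ, deg (t ^ n) = n
  zero : ∀ g, deg g = 0 ↔ g ∈ N

theorem exists_deg (hN : N.Normal) (hgen : ∀ g : G, ∃ (n : ℤ) (x : G), x ∈ N ∧ g = x * t ^ n)
    (htor : ∀ n : ℤ, t ^ n ∈ N → n = 0) : ∃ deg : G → ℤ, Deg N t deg := by
  choose deg x hx hg using hgen
  have key : ∀ (n m : ℤ) (y z : G), y ∈ N → z ∈ N → y * t ^ n = z * t ^ m → n = m := by
    intro n m y z hy hz h
    have h1 : t ^ (n - m) = y⁻¹ * z := by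
      rw [zpow_sub, eq_comm, eq_mul_inv_iff_mul_eq, mul_assoc, ← h, inv_mul_cancel_left]
    have h2 : t ^ (n - m) ∈ N := by
      rw [h1]
      exact N.mul_mem (N.inv_mem hy) hz
    have := htor _ h2
    omega
  refine ⟨deg, ?_, ?_, ?_⟩
  · intro g h
    have h1 : g * h = (x g * (t ^ deg g * x h * (t ^ deg g)⁻¹)) * t ^ (deg g + deg h) := by
      conv_lhs => rw [hg g, hg h]
      rw [zpow_add]
      group
    refine key _ _ _ _ (hx (g * h))
      (N.mul_mem (hx g) (hN.conj_mem _ (hx h) (t ^ deg g))) ?_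
    rw [← hg (g * h)]
    exact h1
  · intro n
    refine key _ _ _ _ (hx (t ^ n)) N.one_mem ?_
    rw [← hg (t ^ n), one_mul]
  · intro g
    constructor
    · intro h
      have h1 := hg g
      rw [h, zpow_zero, mul_one] at h1
      rw [h1]
      exact hx g
    · intro h
      refine key _ _ _ _ (hx g) h ?_
      rw [← hg g, zpow_zero, mul_one]

variable {deg : G → ℤ}

/-- All degrees of `b` are in `S`. -/
def Bd (deg : G → ℤ) (S : Set ℤ) (b : MonoidAlgebra k G) : Prop := ∀ g, b.coeff g ≠ 0 → deg g ∈ S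

theorem Bd.mono {S S' : Set ℤ} {b : MonoidAlgebra k G} (h : Bd deg S b) (hS : S ⊆ S') :
    Bd deg S' b := fun g hg => hS (h g hg)

theorem Bd.zero {S : Set ℤ} : Bd deg S (0 : MonoidAlgebra k G) := fun g hg => absurd rfl hg

theorem Bd.add {S : Set ℤ} {b b' : MonoidAlgebra k G} (h : Bd deg S b) (h' : Bd deg S b') :
    Bd deg S (b + b') := by
  intro g hg
  by_cases h1 : b.coeff g = 0
  · by_cases h2 : b'.coeff g = 0
    · refine absurd ?_ hg
      rw [MonoidAlgebra.coeff_add, Finsupp.add_apply, h1, h2, add_zero]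
    · exact h' g h2
  · exact h g h1

theorem Bd.neg {S : Set ℤ} {b : MonoidAlgebra k G} (h : Bd deg S b) : Bd deg S (-b) := by
  intro g hg
  refine h g fun h1 => hg ?_
  rw [MonoidAlgebra.coeff_neg, Finsupp.neg_apply, h1, neg_zero]

theorem Bd.sub {S : Set ℤ} {b b' : MonoidAlgebra k G} (h : Bd deg S b) (h' : Bd deg S b') :
    Bd deg S (b - b') := by
  rw [sub_eq_add_neg]
  exact h.add h'.neg

theorem Bd.sum {S : Set ℤ} {α : Type*} (s : Finset α) {f : α → MonoidAlgebra k G}
    (h : ∀ a ∈ s, Bd deg S (f a)) : Bd deg S (∑ a ∈ s, f a) := by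
  classical
  induction s using Finset.induction_on with
  | empty => exact Bd.zero
  | insert a s ha ih =>
    rw [Finset.sum_insert ha]
    exact (h a (Finset.mem_insert_self a s)).add
      (ih fun b hb => h b (Finset.mem_insert_of_mem hb))

theorem Bd.single_mul (hd : Deg N t deg) {S S' : Set ℤ} {b : MonoidAlgebra k G} (h : Bd deg S b)
    (g : G) (r : k) (hS : ∀ n ∈ S, deg g + n ∈ S') : Bd deg S' (single g r * b) := by
  intro x hx
  rw [MonoidAlgebra.coeff_single_mul_apply] at hx
  have h1 : b.coeff (g⁻¹ * x) ≠ 0 := fun h2 => hx (by rw [h2, mul_zero])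
  have h2 := hS _ (h _ h1)
  rw [← hd.mul, mul_inv_cancel_left] at h2
  exact h2

theorem Bd.mul (hd : Deg N t deg) {S : Set ℤ} {a b : MonoidAlgebra k G} (ha : Bd deg {0} a)
    (h : Bd deg S b) : Bd deg S (a * b) := by
  rw [← sum_single_coeff a, Finset.sum_mul]
  refine Bd.sum _ fun g hg => h.single_mul hd g _ ?_
  intro n hn
  have h1 : deg g = 0 := ha g (Finsupp.mem_support_iff.mp hg)
  rw [h1, zero_add]
  exact hn

/-- The inclusion of the group ring of `N`. -/
noncomputable abbrev inc (k : Type u) [Ring k] (N : Subgroup G) :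
    MonoidAlgebra k N →+* MonoidAlgebra k G := mdr k N.subtype

theorem bd_inc (hd : Deg N t deg) (a : MonoidAlgebra k N) : Bd deg {0} (inc k N a) := by
  rw [← sum_single_coeff a, map_sum]
  refine Bd.sum _ fun g _ => ?_
  have h1 : inc k N (single g (a.coeff g)) = single (g : G) (a.coeff g) := mdr_single _ _ _
  rw [h1]
  classical
  intro x hx
  rw [MonoidAlgebra.coeff_single, Finsupp.single_apply] at hx
  split_ifs at hx with h2
  · rw [← h2]
    exact (hd.zero _).2 g.2
  · exact absurd rfl hx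

theorem exists_inc (hd : Deg N t deg) {b : MonoidAlgebra k G} (h : Bd deg {0} b) :
    ∃ a, inc k N a = b := by
  rw [← sum_single_coeff b]
  have h1 : ∀ g ∈ b.coeff.support, ∃ a, inc k N a = single g (b.coeff g) := by
    intro g hg
    have h2 : g ∈ N := (hd.zero g).1 (h g (Finsupp.mem_support_iff.mp hg))
    exact ⟨single ⟨g, h2⟩ (b.coeff g), mdr_single _ _ _⟩
  have h2 : ∀ s : Finset G, s ⊆ b.coeff.support →
      ∃ a, inc k N a = ∑ g ∈ s, single g (b.coeff g) := by
    classical
    intro s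
    induction s using Finset.induction_on with
    | empty => exact fun _ => ⟨0, by rw [map_zero, Finset.sum_empty]⟩
    | insert g s hg ih =>
      intro hs
      obtain ⟨a, ha⟩ := ih fun x hx => hs (Finset.mem_insert_of_mem hx)
      obtain ⟨a', ha'⟩ := h1 g (hs (Finset.mem_insert_self g s))
      exact ⟨a' + a, by rw [map_add, ha, ha', Finset.sum_insert hg]⟩
  exact h2 _ (Finset.Subset.refl _)

/-- The power of `t` as an element of the group ring. -/
noncomputable def T (k : Type u) [Ring k] (t : G) (n : ℤ) : MonoidAlgebra k G := single (t ^ n) 1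

theorem T_mul (n m : ℤ) : T k t n * T k t m = T k t (n + m) := by
  unfold T
  rw [MonoidAlgebra.single_mul_single, mul_one, zpow_add]

theorem T_zero : T k t 0 = 1 := by
  unfold T
  rw [zpow_zero]
  rfl

theorem Bd.T_mul (hd : Deg N t deg) {S S' : Set ℤ} {b : MonoidAlgebra k G} (h : Bd deg S b)
    (m : ℤ) (hS : ∀ n ∈ S, m + n ∈ S') : Bd deg S' (T k t m * b) :=
  h.single_mul hd _ _ (by rw [hd.pow]; exact hS)

theorem Bd.mul_T (hd : Deg N t deg) {b : MonoidAlgebra k G} (h : Bd deg {0} b) (m : ℤ) :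
    Bd deg {0} (T k t m * b * T k t (-m)) := by
  have h1 : ∀ x : MonoidAlgebra k G, Bd deg {m} x → Bd deg {0} (x * T k t (-m)) := by
    intro x hx
    rw [← sum_single_coeff x, Finset.sum_mul]
    refine Bd.sum _ fun g hg => ?_
    unfold T
    rw [MonoidAlgebra.single_mul_single]
    classical
    intro y hy
    rw [MonoidAlgebra.coeff_single, Finsupp.single_apply] at hy
    split_ifs at hy with h2
    · have h3 : deg g = m := hx g (Finsupp.mem_support_iff.mp hg)
      show deg y = 0
      rw [← h2, hd.mul, hd.pow, h3]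
      omega
    · exact absurd rfl hy
  exact h1 _ (h.T_mul hd m (S' := {m}) (by
    intro n hn
    have : n = 0 := hn
    show m + n = m
    omega))

/-- Conjugation by powers of `t`. -/
theorem exists_conj (hd : Deg N t deg) (c : MonoidAlgebra k N) (m : ℤ) :
    ∃ c' : MonoidAlgebra k N, inc k N c' * T k t m = T k t m * inc k N c := by
  obtain ⟨c', hc'⟩ := exists_inc hd ((bd_inc hd c).mul_T hd m)
  refine ⟨c', ?_⟩
  rw [hc', mul_assoc, T_mul, neg_add_cancel, T_zero, mul_one]

/-- The left ideals of leading coefficients. -/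
noncomputable def lead (hd : Deg N t deg) (L : Submodule (MonoidAlgebra k G) (MonoidAlgebra k G))
    (n : ℕ) : Submodule (MonoidAlgebra k N) (MonoidAlgebra k N) where
  carrier := {a | ∃ b ∈ L, Bd deg (Set.Ico 0 ((n : ℤ) + 1)) b ∧
    Bd deg (Set.Ico 0 (n : ℤ)) (b - T k t n * inc k N a)}
  zero_mem' := ⟨0, L.zero_mem, Bd.zero, by rw [map_zero, mul_zero, sub_zero]; exact Bd.zero⟩
  add_mem' := by
    rintro a a' ⟨b, h1, h2, h3⟩ ⟨b', h1', h2', h3'⟩
    refine ⟨b + b', L.add_mem h1 h1', h2.add h2', ?_⟩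
    have h4 : b + b' - T k t n * inc k N (a + a') =
        (b - T k t n * inc k N a) + (b' - T k t n * inc k N a') := by
      rw [map_add, mul_add]
      abel
    rw [h4]
    exact h3.add h3'
  smul_mem' := by
    rintro c a ⟨b, h1, h2, h3⟩
    obtain ⟨c', hc'⟩ := exists_conj (k := k) hd c n
    refine ⟨inc k N c' * b, L.smul_mem _ h1, Bd.mul hd (bd_inc hd c') h2, ?_⟩
    have h4 : inc k N c' * b - T k t n * inc k N (c • a) =
        inc k N c' * (b - T k t n * inc k N a) := by
      rw [smul_eq_mul, map_mul, mul_sub, ← mul_assoc (T k t n), ← hc', mul_assoc]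
    rw [h4]
    exact Bd.mul hd (bd_inc hd c') h3

theorem lead_mono_succ (hd : Deg N t deg)
    (L : Submodule (MonoidAlgebra k G) (MonoidAlgebra k G)) (n : ℕ) :
    lead hd L n ≤ lead hd L (n + 1) := by
  rintro a ⟨b, h1, h2, h3⟩
  refine ⟨T k t 1 * b, L.smul_mem _ h1, h2.T_mul hd 1 ?_, ?_⟩
  · intro m hm
    rw [Set.mem_Ico] at hm ⊢
    push_cast
    omega
  · have h4 : T k t 1 * b - T k t ((n + 1 : ℕ) : ℤ) * inc k N a =
        T k t 1 * (b - T k t n * inc k N a) := by
      rw [mul_sub, ← mul_assoc, T_mul]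
      congr 3
      push_cast
      ring
    rw [h4]
    refine h3.T_mul hd 1 ?_
    intro m hm
    rw [Set.mem_Ico] at hm ⊢
    push_cast
    omega

theorem lead_mono (hd : Deg N t deg) (L : Submodule (MonoidAlgebra k G) (MonoidAlgebra k G)) :
    Monotone (lead hd L) := monotone_nat_of_le_succ (lead_mono_succ hd L)

/-- Elements of bounded degree are in `M`, if `M` has the same leading coefficients. -/
theorem mem_of_lead (hd : Deg N t deg) {L M : Submodule (MonoidAlgebra k G) (MonoidAlgebra k G)}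
    (hML : M ≤ L) (h : ∀ n, lead hd L n ≤ lead hd M n) (n : ℕ) :
    ∀ b ∈ L, Bd deg (Set.Ico 0 (n : ℤ)) b → b ∈ M := by
  induction n with
  | zero =>
    intro b hb hB
    have h1 : b = 0 := by
      ext g
      by_contra hc
      have h2 := hB g hc
      rw [Set.mem_Ico] at h2
      push_cast at h2
      omega
    rw [h1]
    exact M.zero_mem
  | succ n ih =>
    intro b hb hB
    set top := fil {g | deg g = (n : ℤ)} b with htop
    have h1 : Bd deg {0} (T k t (-n) * top) := by
      refine Bd.T_mul hd (S := {(n : ℤ)}) ?_ _ ?_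
      · intro g hg
        exact (fil_ne hg).1
      · intro m hm
        have : m = n := hm
        show -(n : ℤ) + m = 0
        omega
    obtain ⟨a, ha⟩ := exists_inc hd h1
    have h2 : T k t n * inc k N a = top := by
      rw [ha, ← mul_assoc, T_mul, add_neg_cancel, T_zero, one_mul]
    have h3 : Bd deg (Set.Ico 0 (n : ℤ)) (b - T k t n * inc k N a) := by
      rw [h2]
      intro g hg
      rw [MonoidAlgebra.coeff_sub, Finsupp.sub_apply] at hg
      by_cases h4 : deg g = (n : ℤ)
      · rw [htop, fil_pos (show g ∈ {g | deg g = (n : ℤ)} from h4), sub_self] at hg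
        exact absurd rfl hg
      · rw [htop, fil_neg (show g ∉ {g | deg g = (n : ℤ)} from h4), sub_zero] at hg
        have h5 := hB g hg
        rw [Set.mem_Ico] at h5 ⊢
        push_cast at h5
        omega
    have h4 : a ∈ lead hd L n := ⟨b, hb, by push_cast at hB; exact hB, h3⟩
    obtain ⟨b', h5, h6, h7⟩ := h n h4
    have h8 : b - b' ∈ M := by
      refine ih _ (L.sub_mem hb (hML h5)) ?_
      have h9 : b - b' = (b - T k t n * inc k N a) - (b' - T k t n * inc k N a) := by abel
      rw [h9]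
      exact h3.sub h7
    have h9 := M.add_mem h8 h5
    rwa [sub_add_cancel] at h9

/-- Every element has nonnegative bounded degrees after multiplication by a power of `t`. -/
theorem exists_shift (hd : Deg N t deg) (b : MonoidAlgebra k G) :
    ∃ (m : ℤ) (n : ℕ), Bd deg (Set.Ico 0 (n : ℤ)) (T k t m * b) := by
  classical
  obtain ⟨c, hc⟩ : ∃ c : ℕ, ∀ g ∈ b.coeff.support, |deg g| ≤ c := by
    refine ⟨∑ g ∈ b.coeff.support, (deg g).natAbs, fun g hg => ?_⟩
    have h1 : (deg g).natAbs ≤ ∑ g ∈ b.coeff.support, (deg g).natAbs :=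
      Finset.single_le_sum (f := fun g => (deg g).natAbs) (fun _ _ => Nat.zero_le _) hg
    rw [Int.abs_eq_natAbs]
    exact_mod_cast h1
  refine ⟨c, 2 * c + 1, Bd.T_mul hd (S := Set.Icc (-(c : ℤ)) c) ?_ _ ?_⟩
  · intro g hg
    exact abs_le.mp (hc g (Finsupp.mem_support_iff.mpr hg))
  · intro m hm
    rw [Set.mem_Icc] at hm
    rw [Set.mem_Ico]
    push_cast
    omega

theorem noeth (hd : Deg N t deg) (hA : IsNoetherianRing (MonoidAlgebra k N)) :
    IsNoetherianRing (MonoidAlgebra k G) := by
  classical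
  rw [isNoetherianRing_iff, isNoetherian_def]
  intro L
  obtain ⟨n0, hn0⟩ := monotone_stabilizes_iff_noetherian.mpr hA ⟨lead hd L, lead_mono hd L⟩
  have hfg : ∀ n, (lead hd L n).FG := fun n => (isNoetherian_def.mp hA) _
  choose S hS using hfg
  have hmem : ∀ n, ∀ a ∈ S n, a ∈ lead hd L n := by
    intro n a ha
    rw [← hS n]
    exact Submodule.subset_span ha
  have hex : ∀ n (a : MonoidAlgebra k N), ∃ b : MonoidAlgebra k G, a ∈ S n →
      (b ∈ L ∧ Bd deg (Set.Ico 0 ((n : ℤ) + 1)) b ∧
        Bd deg (Set.Ico 0 (n : ℤ)) (b - T k t n * inc k N a)) := by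
    intro n a
    by_cases ha : a ∈ S n
    · obtain ⟨b, hb⟩ := hmem n a ha
      exact ⟨b, fun _ => hb⟩
    · exact ⟨0, fun h => absurd h ha⟩
  choose w hw using hex
  set F : Finset (MonoidAlgebra k G) := (Finset.range (n0 + 1)).biUnion fun n =>
    (S n).image (w n) with hF
  refine ⟨F, ?_⟩
  set M := Submodule.span (MonoidAlgebra k G) (F : Set (MonoidAlgebra k G)) with hM
  have hML : M ≤ L := by
    rw [hM, Submodule.span_le]
    intro b hb
    rw [Finset.mem_coe, hF, Finset.mem_biUnion] at hb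
    obtain ⟨n, _, hb⟩ := hb
    obtain ⟨a, ha, rfl⟩ := Finset.mem_image.mp hb
    exact (hw n a ha).1
  have hlead0 : ∀ n, n ≤ n0 → lead hd L n ≤ lead hd M n := by
    intro n hn
    rw [← hS n, Submodule.span_le]
    intro a ha
    have ha' : a ∈ S n := ha
    refine ⟨w n a, Submodule.subset_span ?_, (hw n a ha').2.1, (hw n a ha').2.2⟩
    rw [Finset.mem_coe, hF, Finset.mem_biUnion]
    exact ⟨n, Finset.mem_range.mpr (by omega), Finset.mem_image_of_mem _ ha'⟩
  have hlead : ∀ n, lead hd L n ≤ lead hd M n := by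
    intro n
    by_cases hn : n ≤ n0
    · exact hlead0 n hn
    · have h1 : lead hd L n0 = lead hd L n := hn0 n (by omega)
      rw [← h1]
      exact (hlead0 n0 le_rfl).trans (lead_mono hd M (by omega))
  refine le_antisymm hML ?_
  intro b hb
  obtain ⟨m, n, hB⟩ := exists_shift hd b
  have h1 := mem_of_lead hd hML hlead n _ (L.smul_mem (T k t m) hb) hB
  have h2 := M.smul_mem (T k t (-m)) h1
  rw [smul_eq_mul, smul_eq_mul, ← mul_assoc, T_mul, neg_add_cancel, T_zero, one_mul] at h2
  exact h2

end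

/-- Row NOE. -/
theorem noe : NoeStatement.{u} := by
  intro k G _ _ N t hN hgen htor hA
  obtain ⟨deg, hd⟩ := exists_deg hN hgen htor
  exact noeth hd hA

end Pool.Agent.NegK.TT.H73
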