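import Pool.Agent.Lib.MP_28303a_al.TT.Main3
import Pool.Agent.Lib.MP_28303a_al.TT.H76.BT
import Pool.Agent.Lib.MP_28303a_al.TT.H73.Noe

/-! # Extensions by `ℤ` of groups whose group rings over regular rings are regular -/

set_option autoImplicit false
set_option linter.unusedSectionVars false
set_option linter.unusedVariables false

namespace Pool.Agent.NegK.TT.H73

universe u

open Pool.Agent.NegK.TW

/-- the line -/
def line : SimpleGraph (ULift.{u} ℤ) :=
  SimpleGraph.fromRel fun x y => y = ⟨x.down - 1⟩

theorem line_adj (x y : ULift.{u} ℤ) : line.Adj x y ↔ (y = ⟨x.down - 1⟩ ∨ x = ⟨y.down - 1⟩) := by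
  unfold line
  rw [SimpleGraph.fromRel_adj]
  refine ⟨fun h => h.2, fun h => ⟨?_, h⟩⟩
  rintro rfl
  have h1 : x.down = x.down - 1 := by
    rcases h with h | h <;> exact congrArg ULift.down h
  omega

theorem line_isTree : line.{u}.IsTree := by
  haveI : Nonempty (ULift.{u} ℤ) := ⟨⟨0⟩⟩
  refine H76.isTree_of_parent line (fun x => ⟨x.down - 1⟩) (fun x => x.down) line_adj
    (fun x => rfl) ?_
  have hit : ∀ (n : ℕ) (x : ULift.{u} ℤ),
      (fun x : ULift.{u} ℤ => (⟨x.down - 1⟩ : ULift.{u} ℤ))^[n] x = ⟨x.down - n⟩ := by
    intro n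
    induction n with
    | zero => intro x; simp
    | succ n ih =>
      intro x
      rw [Function.iterate_succ_apply', ih]
      apply ULift.ext
      push_cast
      ring
  intro x y
  refine ⟨(x.down - min x.down y.down).toNat, (y.down - min x.down y.down).toNat, ?_⟩
  rw [hit, hit]
  apply ULift.ext
  simp only
  omega

/-- a noetherian regular coherent ring is regular -/
theorem regular_of {A : Type u} [Ring A] (h1 : IsNoetherian A A) (h2 : RegCoh A) :
    RegularRing A := by
  refine ⟨h1, fun M _ _ hM => ?_⟩
  obtain ⟨n, f, hf⟩ := Module.Finite.exists_fin' A M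
  obtain ⟨d, hd⟩ := h2 n (LinearMap.ker f) (IsNoetherian.noetherian _)
  exact ⟨d + 1, Fin n → A, inferInstance, inferInstance, f, inferInstance, inferInstance, hf, hd⟩

/-- The class of the groups with regular group rings over regular rings is closed under
extensions by `ℤ`. -/
theorem inN_ext (G : Type u) [Group G] (f : G →* Multiplicative ℤ) (h : InN f.ker) : InN G := by
  by_cases hf : ∀ g, f g = 1
  · have htop : f.ker = ⊤ := by
      rw [eq_top_iff]
      intro g _
      exact hf g
    exact inN_equiv ((MulEquiv.subgroupCongr htop).trans Subgroup.topEquiv) h regularRing_equiv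
  push Not at hf
  obtain ⟨g₀, hg₀⟩ := hf
  -- the generator
  obtain ⟨⟨_, ⟨t, rfl⟩⟩, ht⟩ := IsCyclic.exists_generator (α := f.range)
  have ht' : ∀ g, ∃ n : ℤ, f g = f t ^ n := by
    intro g
    obtain ⟨n, hn⟩ := Subgroup.mem_zpowers_iff.1 (ht ⟨f g, ⟨g, rfl⟩⟩)
    exact ⟨n, (congrArg Subtype.val hn).symm⟩
  have ht1 : f t ≠ 1 := by
    intro h1
    obtain ⟨n, hn⟩ := ht' g₀
    rw [h1, one_zpow] at hn
    exact hg₀ hn
  intro R _ hR
  have hnoe : IsNoetherianRing (MonoidAlgebra R G) := by
    refine noe R G f.ker t inferInstance ?_ ?_ (h R hR).1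
    · intro g
      obtain ⟨n, hn⟩ := ht' g
      refine ⟨n, g * (t ^ n)⁻¹, ?_, by group⟩
      rw [MonoidHom.mem_ker, map_mul, map_inv, map_zpow, hn, mul_inv_cancel]
    · intro n hn
      rw [MonoidHom.mem_ker, map_zpow] at hn
      have h1 : n • Multiplicative.toAdd (f t) = 0 := by
        rw [← toAdd_zpow, hn, toAdd_one]
      rw [smul_eq_mul, mul_eq_zero] at h1
      rcases h1 with h1 | h1
      · exact h1
      · exact absurd (Multiplicative.toAdd.injective (h1.trans toAdd_one.symm)) ht1
  -- the action on the line
  letI act : MulAction G (ULift.{u} ℤ) :=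
    { smul := fun g x => ⟨x.down + Multiplicative.toAdd (f g)⟩
      one_smul := fun x => by
        change (⟨x.down + Multiplicative.toAdd (f 1)⟩ : ULift.{u} ℤ) = x
        rw [map_one, toAdd_one, add_zero]
      mul_smul := fun g g' x => by
        change (⟨x.down + Multiplicative.toAdd (f (g * g'))⟩ : ULift.{u} ℤ) =
          ⟨(x.down + Multiplicative.toAdd (f g')) + Multiplicative.toAdd (f g)⟩
        rw [map_mul, toAdd_mul]
        apply ULift.ext
        ring }
  have hact : ∀ (g : G) (x : ULift.{u} ℤ),
      g • x = (⟨x.down + Multiplicative.toAdd (f g)⟩ : ULift.{u} ℤ) := fun _ _ => rfl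
  have hst : ∀ x : ULift.{u} ℤ, MulAction.stabilizer G x = f.ker := by
    intro x
    ext g
    rw [MulAction.mem_stabilizer_iff, MonoidHom.mem_ker, hact]
    constructor
    · intro h1
      have h2 := congrArg ULift.down h1
      simp only at h2
      have h3 : Multiplicative.toAdd (f g) = 0 := by omega
      exact Multiplicative.toAdd.injective (h3.trans toAdd_one.symm)
    · intro h1
      rw [h1, toAdd_one, add_zero]
  have htree : TreeAct G line.{u} := by
    refine ⟨line_isTree, ?_, ?_⟩
    · intro g v w hvw
      rw [line_adj] at hvw ⊢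
      rw [hact, hact]
      rcases hvw with hvw | hvw
      · left
        rw [hvw]
        apply ULift.ext
        simp only
        ring
      · right
        rw [hvw]
        apply ULift.ext
        simp only
        ring
    · rintro g v w hvw ⟨h1, h2⟩
      rw [hact] at h1 h2
      have h3 := congrArg ULift.down h1
      have h4 := congrArg ULift.down h2
      simp only at h3 h4
      have h5 : v = w := ULift.ext _ _ (by omega)
      exact hvw.ne h5
  have hrc : RegCoh (MonoidAlgebra R G) := by
    refine H66.wald G (ULift.{u} ℤ) line htree ?_ ?_ R hR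
    · intro v
      rw [hst v]
      exact inRC_of_inN h
    · intro v w _
      rw [hst v, hst w, inf_idem]
      exact h
  exact regular_of hnoe hrc

end Pool.Agent.NegK.TT.H73
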